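import Pool.Agent.Q218.Googol.Count

set_option autoImplicit false

/-!
# The cardinal complexity of the game of googol is polynomial (indeed quadratic)

The instance that gives the `n`-element set `S ⊆ {1, …, N}` a probability proportional to
`1 / C(max S, n)` denies every online cardinal algorithm a winning probability above
`1/e + 1/n + 1/(1/n + 1/(n+1) + … + 1/N)`; for `N = n²` this is at most `1/e + 1/n + 1/log n`.
-/

namespace Pool.Agent.Results.MP_d38296_lc.PolynomialCardinalComplexity

open Pool.Agent.Q218.Googol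

/-- Question 1 is answered positively: there is a polynomial `p` (namely `p(x, y) = x ^ 2`) such
that for every `ε ∈ (0, 1)` and every sufficiently large `n` there are `N ≤ p(n, 1/ε)` and an
instance on the `n`-subsets of `{1, …, N}` under which no online cardinal algorithm wins with
probability greater than `1/e + ε`.  Moreover for all `n ≥ 2` there is an instance with `N = n ^ 2`
under which no online cardinal algorithm wins with probability above `1/e + 1/n + 1/log n`. -/
theorem result :
    (∃ p : MvPolynomial (Fin 2) ℝ, ∀ ε : ℝ, 0 < ε → ε < 1 → ∃ n₀ : ℕ, ∀ n : ℕ, n₀ ≤ n →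
      ∃ N : ℕ, n ≤ N ∧ (N : ℝ) ≤ MvPolynomial.eval ![(n : ℝ), 1 / ε] p ∧
        ∃ D : Instance n N, ∀ A : Algorithm, winProb D A ≤ 1 / Real.exp 1 + ε) ∧
    (∀ n : ℕ, 2 ≤ n → ∃ D : Instance n (n ^ 2), ∀ A : Algorithm,
      winProb D A ≤ 1 / Real.exp 1 + 1 / n + 1 / Real.log n) := by
  refine ⟨⟨MvPolynomial.X 0 ^ 2, fun ε h0 _ => ⟨max 2 ⌈Real.exp (2 / ε)⌉₊, fun n hn => ?_⟩⟩,
    fun n hn => win_le_sq hn⟩
  have hn2 : 2 ≤ n := (le_max_left _ _).trans hn
  have hn1 : Real.exp (2 / ε) ≤ n := by
    refine (Nat.le_ceil _).trans ?_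
    exact_mod_cast (le_max_right _ _).trans hn
  have hn0 : (0 : ℝ) < n := lt_of_lt_of_le (Real.exp_pos _) hn1
  obtain ⟨D, hD⟩ := win_le_sq hn2
  refine ⟨n ^ 2, by nlinarith, by simp, D, fun A => (hD A).trans ?_⟩
  have h1 : 2 / ε ≤ Real.log n := by
    rw [Real.le_log_iff_exp_le hn0]
    exact hn1
  have h2 : Real.log n ≤ n := (Real.log_le_sub_one_of_pos hn0).trans (by linarith)
  have h3 : 0 < 2 / ε := by positivity
  have h4 : 1 / Real.log n ≤ ε / 2 := by
    have := one_div_le_one_div_of_le h3 h1
    rwa [one_div_div] at this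
  have h5 : 1 / (n : ℝ) ≤ ε / 2 := by
    have := one_div_le_one_div_of_le h3 (h1.trans h2)
    rwa [one_div_div] at this
  linarith

end Pool.Agent.Results.MP_d38296_lc.PolynomialCardinalComplexity
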